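import Pool.Agent.H70.PW.Targets
import Pool.Agent.H30.OQ.ERR

/-!
# ERX: the error of the table lemma
-/

set_option autoImplicit false

namespace Pool.Agent.H58.PW.ERX

open Finset Filter Pool.Agent.H70.OQ Pool.Agent.H70.PW

theorem erx : T_ERX := by
  intro d
  filter_upwards [eventually_ge_atTop 1, eventually_ge_atTop (64 * (1 + 2 ^ (d + 1)))] with n hn1 hn2
    t w ρ ht hw hwρ
  have hexp : (t + 1) * (d + 2) = (t + 1) * d + 2 * (t + 1) := by ring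
  have hw0 : 0 < w := by omega
  have hwR : (0 : ℝ) < w := by exact_mod_cast hw0
  have hww : w ≤ 2 ^ n := by
    refine le_trans ?_ hw
    calc w = w ^ 1 := (pow_one w).symm
      _ ≤ w ^ 3 := Nat.pow_le_pow_right hw0 (by norm_num)
  unfold errT
  rw [Finset.sum_add_distrib]
  -- part 1
  have p1 : 2 / (1 / (64 * (w : ℝ))) * (5 / 2 ^ (w + 1)) ≤ (1 / 4) * (1 / 4 ^ ρ) := by
    have e1 : 1280 * w * 4 ^ ρ ≤ 2 ^ w := by
      have a2 : (4 : ℕ) ^ ρ = 2 ^ (2 * ρ) := by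
        rw [pow_mul]; norm_num
      calc 1280 * w * 4 ^ ρ ≤ 2 ^ 11 * 2 ^ n * 2 ^ (2 * ρ) := by
            rw [a2]
            apply Nat.mul_le_mul_right
            exact Nat.mul_le_mul (by norm_num) hww
        _ = 2 ^ (11 + n + 2 * ρ) := by rw [pow_add, pow_add]
        _ ≤ 2 ^ w := Nat.pow_le_pow_right (by norm_num) (by omega)
    have e2 : (1280 * (w : ℝ) * 4 ^ ρ) ≤ 2 ^ w := by exact_mod_cast e1
    have e3 : 2 / (1 / (64 * (w : ℝ))) * (5 / 2 ^ (w + 1)) = 320 * w / 2 ^ w := by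
      rw [pow_succ]
      field_simp
      ring
    rw [e3]
    have e4 : (1 / 4 : ℝ) * (1 / 4 ^ ρ) = 1 / (4 * 4 ^ ρ) := by
      rw [one_div_mul_one_div]
    rw [e4, div_le_div_iff₀ (by positivity) (by positivity)]
    linarith
  have p2 : ∑ i ∈ range d, ((((2 ^ t : ℕ) : ℝ) + 1) ^ (i + 1) * (5 / 2 ^ (w + 1))) ≤
      (1 / 4) * (1 / 4 ^ ρ) := by
    have b1 : ∀ i ∈ range d, ((((2 ^ t : ℕ) : ℝ) + 1) ^ (i + 1) * (5 / 2 ^ (w + 1))) ≤
        2 ^ ((t + 1) * d) * (5 / 2 ^ (w + 1)) := by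
      intro i hi
      have hid : i < d := mem_range.mp hi
      apply mul_le_mul_of_nonneg_right _ (by positivity)
      have c1 : (((2 ^ t : ℕ) : ℝ) + 1) ≤ 2 ^ (t + 1) := by
        push_cast
        have : (1 : ℝ) ≤ 2 ^ t := one_le_pow₀ (by norm_num)
        rw [pow_succ]
        linarith
      calc (((2 ^ t : ℕ) : ℝ) + 1) ^ (i + 1) ≤ (2 ^ (t + 1)) ^ (i + 1) :=
            pow_le_pow_left₀ (by positivity) c1 _
        _ = 2 ^ ((t + 1) * (i + 1)) := by rw [pow_mul]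
        _ ≤ 2 ^ ((t + 1) * d) := by
            apply pow_le_pow_right₀ (by norm_num)
            exact Nat.mul_le_mul_left _ hid
    refine (Finset.sum_le_sum b1).trans ?_
    rw [Finset.sum_const, card_range, nsmul_eq_mul]
    have e1 : 20 * d * 2 ^ ((t + 1) * d) * 4 ^ ρ ≤ 2 ^ (w + 1) := by
      have a1 : d ≤ 2 ^ d := (Nat.lt_two_pow_self (n := d)).le
      have a2 : (4 : ℕ) ^ ρ = 2 ^ (2 * ρ) := by
        rw [pow_mul]; norm_num
      calc 20 * d * 2 ^ ((t + 1) * d) * 4 ^ ρ ≤ 2 ^ 5 * 2 ^ d * 2 ^ ((t + 1) * d) * 2 ^ (2 * ρ) := by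
            rw [a2]
            apply Nat.mul_le_mul_right
            apply Nat.mul_le_mul_right
            exact Nat.mul_le_mul (by norm_num) a1
        _ = 2 ^ (5 + d + (t + 1) * d + 2 * ρ) := by rw [pow_add, pow_add, pow_add]
        _ ≤ 2 ^ (w + 1) := Nat.pow_le_pow_right (by norm_num) (by omega)
    have e2 : (20 * (d : ℝ) * 2 ^ ((t + 1) * d) * 4 ^ ρ) ≤ 2 ^ (w + 1) := by exact_mod_cast e1
    have e4 : (1 / 4 : ℝ) * (1 / 4 ^ ρ) = 1 / (4 * 4 ^ ρ) := by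
      rw [one_div_mul_one_div]
    have e5 : (d : ℝ) * (2 ^ ((t + 1) * d) * (5 / 2 ^ (w + 1))) =
        5 * d * 2 ^ ((t + 1) * d) / 2 ^ (w + 1) := by ring
    rw [e4, e5, div_le_div_iff₀ (by positivity) (by positivity)]
    linarith
  have p3 := Pool.Agent.H30.OQ.ERR.part3 d n w ρ hw0 (by
    have a1 : 2 * ρ + 2 + d + 2 ^ (d + 1) * n ≤ (1 + 2 ^ (d + 1)) * w := by
      have b1 : 2 ^ (d + 1) * n ≤ 2 ^ (d + 1) * w := Nat.mul_le_mul_left _ (by omega)
      have b2 : (1 + 2 ^ (d + 1)) * w = w + 2 ^ (d + 1) * w := by ring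
      rw [b2]
      have b3 : 2 * ρ + 2 + d ≤ w := by omega
      omega
    calc 64 * w * (2 * ρ + 2 + d + 2 ^ (d + 1) * n) ≤ 64 * w * ((1 + 2 ^ (d + 1)) * w) :=
          Nat.mul_le_mul_left _ a1
      _ = (64 * (1 + 2 ^ (d + 1))) * w ^ 2 := by ring
      _ ≤ w * w ^ 2 := Nat.mul_le_mul_right _ (hn2.trans (by omega))
      _ = w ^ 3 := by ring
      _ ≤ 2 ^ n := hw)
  have hpos : (0 : ℝ) < 1 / 4 ^ ρ := by positivity
  linarith

end Pool.Agent.H58.PW.ERX
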