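import Pool.Agent.H70.PW.Targets

/-!
# EXQ: the expansion of the expected gap
-/

set_option autoImplicit false

namespace Pool.Agent.H58.PW.EXQ

open Finset Pool.Agent.H6.NB Pool.Agent.H70.OQ Pool.Agent.H70.PW

theorem eps2_le (q : ℕ) : eps2 q ≤ 1 := by
  unfold eps2
  rw [div_le_one (by positivity)]
  have : (0 : ℝ) ≤ q := Nat.cast_nonneg q
  linarith

theorem etaB_nonneg (B : ℝ) (q N : ℕ) : 0 ≤ etaB B q N := by
  unfold etaB er
  have h1 := eps2_le q
  have h2 : (0 : ℝ) ≤ 1 - eps2 q / 4 := by linarith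
  positivity

theorem esymm_le {Ω : Type} [DecidableEq Ω] (η : Ω → ℝ) (hη : ∀ s, 0 ≤ η s) (A : Finset Ω) :
    ∀ L : ℕ, ∑ I ∈ powersetCard L A, ∏ s ∈ I, η s ≤ (∑ s ∈ A, η s) ^ L := by
  induction A using Finset.induction_on with
  | empty =>
    intro L
    rcases L with _ | L
    · simp
    · rw [powersetCard_eq_empty.2 (by simp)]
      simp
  | insert a A ha ih =>
    intro L
    rcases L with _ | L
    · simp
    · rw [powersetCard_succ_insert ha, sum_union, sum_image, sum_insert ha]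
      · have h1 : ∑ I ∈ powersetCard L A, ∏ s ∈ insert a I, η s =
            η a * ∑ I ∈ powersetCard L A, ∏ s ∈ I, η s := by
          rw [mul_sum]
          refine sum_congr rfl fun I hI => ?_
          rw [prod_insert]
          exact fun h => ha ((mem_powersetCard.1 hI).1 h)
        rw [h1]
        have hx : 0 ≤ ∑ s ∈ A, η s := sum_nonneg fun s _ => hη s
        have h2 := ih (L + 1)
        have h3 := ih L
        have h4 : (∑ s ∈ A, η s) ^ L ≤ (η a + ∑ s ∈ A, η s) ^ L :=
          pow_le_pow_left₀ hx (by linarith [hη a]) L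
        have h5 : 0 ≤ η a + ∑ s ∈ A, η s := by linarith [hη a]
        calc ∑ I ∈ powersetCard (L + 1) A, ∏ s ∈ I, η s + η a * ∑ I ∈ powersetCard L A, ∏ s ∈ I, η s
            ≤ (∑ s ∈ A, η s) ^ (L + 1) + η a * (∑ s ∈ A, η s) ^ L :=
              add_le_add h2 (mul_le_mul_of_nonneg_left h3 (hη a))
          _ = (η a + ∑ s ∈ A, η s) * (∑ s ∈ A, η s) ^ L := by ring
          _ ≤ (η a + ∑ s ∈ A, η s) * (η a + ∑ s ∈ A, η s) ^ L := mul_le_mul_of_nonneg_left h4 h5
          _ = (η a + ∑ s ∈ A, η s) ^ (L + 1) := by ring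
      · intro I hI J hJ hIJ
        have hI' : a ∉ I := fun h => ha ((mem_powersetCard.1 hI).1 h)
        have hJ' : a ∉ J := fun h => ha ((mem_powersetCard.1 hJ).1 h)
        rw [← erase_insert hI', hIJ, erase_insert hJ']
      · rw [disjoint_left]
        intro I hI hI2
        obtain ⟨J, -, rfl⟩ := mem_image.1 hI2
        exact ha ((mem_powersetCard.1 hI).1 (mem_insert_self _ _))

theorem exq (h1 : T_CAP) (h2 : T_REM) (h3 : T_NUC) : T_EXQ := by
  intro B Ω ρ _ _ _ _ nn qb D f lev S t d h S' L Bd T hS hf hS1 hS2 hSS ht hL hLS hB hq her hFou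
  set η : Ω → ℝ := fun s => etaB Bd (qb s) (nn s) with hη
  have hη0 : ∀ s, 0 ≤ η s := fun s => etaB_nonneg _ _ _
  have hM : (0 : ℝ) ≤ 7 * Fintype.card ρ := by positivity
  have key : ∀ e : Ω → Bool,
      |∑ P : Blk nn qb, (∏ s, nuc (thG (accG D P) T e s) (qb s) (nn s) (P s)) * gap f (vlG T e P) -
        ∑ I ∈ univ.filter (fun I : Finset Ω => I.card < L), ∑ P : Blk nn qb,
          wgt I P * ((∏ s ∈ I, bi (thG (accG D P) T e s)) * gap f (vlG T e P))| ≤
      (∑ I ∈ powersetCard L univ, ∏ s ∈ I, η s) * (7 * Fintype.card ρ) := by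
    intro e
    refine h1 Ω (fun s => Fin (nn s) → VV (qb s) → Bool) lev (fun P => thG (accG D P) T e)
      (fun b s p => nuc b (qb s) (nn s) p) (fun P => gap f (vlG T e P)) η L (7 * Fintype.card ρ)
      hL hM hη0 ?_ ?_ ?_ ?_
    · intro b s p
      exact (h3 b (qb s) (nn s) (her s)).1 p
    · intro b s
      exact (h3 b (qb s) (nn s) (her s)).2.1
    · intro P P' s hP
      unfold thG accG
      rw [hS.low s (vlG T e P) (vlG T e P') ?_]
      intro c hc
      cases c with
      | cst b => rfl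
      | bas a => rfl
      | key s' => rfl
      | blk s' i v =>
        have hc' : lev s' < lev s := hc
        change P s' i v = P' s' i v
        rw [hP s' hc']
    · intro I P hI
      exact h2 B Ω ρ nn qb D f lev S t d h S' L Bd I T e P hS hf hS1 hS2 hSS ht hLS hB hq her hFou hI
  have hc : (0 : ℝ) < 2 ^ Fintype.card Ω := by positivity
  have hcard : (Fintype.card (Ω → Bool) : ℝ) = 2 ^ Fintype.card Ω := by
    rw [Fintype.card_fun, Fintype.card_bool]
    push_cast
    rfl
  have e1 : REx D f T - ∑ I ∈ univ.filter (fun I : Finset Ω => I.card < L), trm D f T I =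
      (∑ e : Ω → Bool, (∑ P : Blk nn qb, (∏ s, nuc (thG (accG D P) T e s) (qb s) (nn s) (P s)) *
        gap f (vlG T e P) -
        ∑ I ∈ univ.filter (fun I : Finset Ω => I.card < L), ∑ P : Blk nn qb,
          wgt I P * ((∏ s ∈ I, bi (thG (accG D P) T e s)) * gap f (vlG T e P)))) /
        2 ^ Fintype.card Ω := by
    unfold REx trm
    rw [← sum_div, ← sub_div, sum_sub_distrib]
    rw [sum_comm (s := univ.filter (fun I : Finset Ω => I.card < L))]
  rw [e1, abs_div, abs_of_pos hc, div_le_iff₀ hc]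
  calc |∑ e : Ω → Bool, (∑ P : Blk nn qb, (∏ s, nuc (thG (accG D P) T e s) (qb s) (nn s) (P s)) *
        gap f (vlG T e P) -
        ∑ I ∈ univ.filter (fun I : Finset Ω => I.card < L), ∑ P : Blk nn qb,
          wgt I P * ((∏ s ∈ I, bi (thG (accG D P) T e s)) * gap f (vlG T e P)))|
      ≤ ∑ e : Ω → Bool, (∑ I ∈ powersetCard L univ, ∏ s ∈ I, η s) * (7 * Fintype.card ρ) :=
        (abs_sum_le_sum_abs _ _).trans (sum_le_sum fun e _ => key e)
    _ = (∑ I ∈ powersetCard L univ, ∏ s ∈ I, η s) * (7 * Fintype.card ρ) * 2 ^ Fintype.card Ω := by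
        rw [sum_const, card_univ, nsmul_eq_mul, hcard]
        ring
    _ ≤ (∑ s, etaB Bd (qb s) (nn s)) ^ L * (7 * Fintype.card ρ) * 2 ^ Fintype.card Ω := by
        refine mul_le_mul_of_nonneg_right (mul_le_mul_of_nonneg_right ?_ hM) hc.le
        exact esymm_le η hη0 univ L

end Pool.Agent.H58.PW.EXQ
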