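import Pool.Agent.H70.PW.Targets
import Pool.Agent.H79.OQ.TBI

/-!
# TBD: the table lemma for all rows together, induction over the depth
-/

set_option autoImplicit false

namespace Pool.Agent.H58.PW.TBD

open Finset Pool.Agent.H70.OQ Pool.Agent.H6.NB Pool.Agent.H79.OQ.TB1 Pool.Agent.H79.OQ.TBI
  Pool.Agent.H70.PW

theorem ic_mono {p p' : Prop} (h : p → p') : ic p ≤ ic p' := by
  unfold ic
  split_ifs with h1 h2 h2
  · exact le_rfl
  · exact absurd (h h1) h2
  · norm_num
  · exact le_rfl

section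

variable {X : Type} {Y : ℕ → Type} [Fintype X] [DecidableEq X] [∀ i, Fintype (Y i)]
  [∀ i, DecidableEq (Y i)] [∀ i, Nonempty (Y i)]

/-- The probability that the restriction fails. -/
noncomputable def Ps (q : ℝ) (w k : ℕ) (f : (Node X Y (k + 2) → Bool) → Bool) (H : Hid X Y k)
    (h' : Node X Y k → Y k) (h : Node X Y (k + 1) → Y (k + 1)) : ℝ :=
  ∑ l0 : X → Bool, lw q l0 *
    ic (¬ Dx w l0 (fun b => sv b (k + 2) (((H, h'), h) : Hid X Y (k + 2))) f)

/-- The same for the lower level. -/
noncomputable def Pt (q : ℝ) (w k : ℕ) (f : (Node X Y (k + 1) → Bool) → Bool) (H : Hid X Y k)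
    (h' : Node X Y k → Y k) : ℝ :=
  ∑ l0 : X → Bool, lw q l0 * ic (¬ Dx w l0 (fun b => sv b (k + 1) ((H, h') : Hid X Y (k + 1))) f)

omit [∀ i, Fintype (Y i)] [∀ i, Nonempty (Y i)] in
theorem Ps_le_one (h6 : T_LWS) {q : ℝ} (hq0 : 0 ≤ q) (hq1 : q ≤ 1) (w k : ℕ)
    (f : (Node X Y (k + 2) → Bool) → Bool) (H : Hid X Y k)
    (h' : Node X Y k → Y k) (h : Node X Y (k + 1) → Y (k + 1)) : Ps q w k f H h' h ≤ 1 := by
  unfold Ps
  rw [← h6 X q]
  refine sum_le_sum fun l _ => ?_
  exact mul_le_of_le_one_right (lw_nonneg hq0 hq1 l) (ic_le_one _)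

omit [∀ i, Fintype (Y i)] [∀ i, Nonempty (Y i)] in
theorem Ps_le (w k : ℕ) {q : ℝ} (hq0 : 0 ≤ q) (hq1 : q ≤ 1) (f : (Node X Y (k + 2) → Bool) → Bool)
    (h : Node X Y (k + 1) → Y (k + 1)) (l : Node X Y (k + 1) → Bool)
    (f' : (Node X Y (k + 1) → Bool) → Bool)
    (hf' : ∀ s : Node X Y (k + 1) → Bool, (∀ a, l a = false → s a = true) → f' s = f (glu h s))
    (H : Hid X Y k) (h' : Node X Y k → Y k) (hl : ∀ a : Node X Y k, l (a, h' a) = true) :
    Ps q w k f H h' h ≤ Pt q w k f' H h' := by
  unfold Ps Pt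
  refine sum_le_sum fun l0 _ => mul_le_mul_of_nonneg_left (ic_mono fun hn hd => hn ?_)
    (lw_nonneg hq0 hq1 l0)
  obtain ⟨T, hT, hT2⟩ := hd
  refine ⟨T, hT, fun b hb => ?_⟩
  rw [hT2 b hb]
  exact hf' _ (fun v hv => glu_true (A := Node X Y k) l h' hl _ v hv)

/-- The bound for each pair. -/
theorem pair_le (h5 : T_UWS) (h6 : T_LWS) (S w G : ℕ) {q : ℝ} (hq0 : 0 ≤ q) (hq1 : q ≤ 1) (k : ℕ)
    (ih : ∀ (L : Node X Y k → Finset (Y k)) (f : (Node X Y (k + 1) → Bool) → Bool), Fm S w (k + 1) f →
      (∀ a, Fintype.card (Node X Y k) ≤ (L a).card) →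
      ∑ H : Hid X Y k, ∑ h : Node X Y k → Y k, uw L h * Pt q w k f H h ≤
      errT X Y S w G q k * Fintype.card (Hid X Y k))
    (f : (Node X Y (k + 2) → Bool) → Bool) (h : Node X Y (k + 1) → Y (k + 1))
    (l : Node X Y (k + 1) → Bool) :
    ∑ H : Hid X Y k, ∑ h' : Node X Y k → Y k, uw (Lof (A := Node X Y k) l) h' *
        Ps q w k f H h' h ≤
      (ic (¬ Red S w (k + 1) f h l) +
        ic (∃ a : Node X Y k, (univ.filter fun z => l (a, z) = true).card <
          Fintype.card (Node X Y k)) + errT X Y S w G q k) * Fintype.card (Hid X Y k) := by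
  have hE := errT_nonneg X Y S w G hq0 hq1 k
  have hcH : (0 : ℝ) ≤ Fintype.card (Hid X Y k) := by positivity
  have huw := h5 (Node X Y k) (Y k) (Lof (A := Node X Y k) l)
  have triv : ∑ H : Hid X Y k, ∑ h' : Node X Y k → Y k, uw (Lof (A := Node X Y k) l) h' *
        Ps q w k f H h' h ≤ 1 * Fintype.card (Hid X Y k) := by
    calc ∑ H : Hid X Y k, ∑ h' : Node X Y k → Y k, uw (Lof (A := Node X Y k) l) h' *
          Ps q w k f H h' h
        ≤ ∑ H : Hid X Y k, ∑ h' : Node X Y k → Y k, uw (Lof (A := Node X Y k) l) h' := by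
          refine sum_le_sum fun H _ => sum_le_sum fun h' _ => ?_
          exact mul_le_of_le_one_right (huw.1 h') (Ps_le_one h6 hq0 hq1 w k f H h' h)
      _ = ∑ H : Hid X Y k, (1 : ℝ) := by
          refine sum_congr rfl fun H _ => ?_
          exact huw.2 (fun a => Lof_nonempty _ a)
      _ = 1 * Fintype.card (Hid X Y k) := by simp
  by_cases c1 : Red S w (k + 1) f h l
  · by_cases c2 : ∃ a : Node X Y k, (univ.filter fun z => l (a, z) = true).card <
          Fintype.card (Node X Y k)
    · refine triv.trans (mul_le_mul_of_nonneg_right ?_ hcH)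
      rw [ic_true c2]
      have := ic_nonneg (¬ Red S w (k + 1) f h l)
      linarith
    · push Not at c2
      obtain ⟨f', hfm, hf'⟩ := c1
      have hpos : ∀ a : Node X Y k, 0 < (univ.filter fun z => l (a, z) = true).card := fun a =>
        lt_of_lt_of_le (Fintype.card_pos_iff.2 ⟨a⟩) (c2 a)
      have key := ih (Lof (A := Node X Y k) l) f' hfm (fun a => by
        rw [Lof_eq l a (hpos a)]
        exact c2 a)
      have e : ∑ H : Hid X Y k, ∑ h' : Node X Y k → Y k, uw (Lof (A := Node X Y k) l) h' *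
          Ps q w k f H h' h ≤
          ∑ H : Hid X Y k, ∑ h' : Node X Y k → Y k, uw (Lof (A := Node X Y k) l) h' *
          Pt q w k f' H h' := by
        refine sum_le_sum fun H _ => sum_le_sum fun h' _ => ?_
        by_cases hz : uw (Lof (A := Node X Y k) l) h' = 0
        · rw [hz, zero_mul, zero_mul]
        · exact mul_le_mul_of_nonneg_left (Ps_le w k hq0 hq1 f h l f' hf' H h'
            (live_of_uw (A := Node X Y k) l hpos h' hz)) (huw.1 h')
      refine e.trans (key.trans (mul_le_mul_of_nonneg_right ?_ hcH))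
      have := ic_nonneg (¬ Red S w (k + 1) f h l)
      have := ic_nonneg (∃ a : Node X Y k, (univ.filter fun z => l (a, z) = true).card <
          Fintype.card (Node X Y k))
      linarith
  · refine triv.trans (mul_le_mul_of_nonneg_right ?_ hcH)
    rw [ic_true c1]
    have := ic_nonneg (∃ a : Node X Y k, (univ.filter fun z => l (a, z) = true).card <
          Fintype.card (Node X Y k))
    linarith

end

theorem tbd (h1 : T_RED) (h3 : T_SYM) (h4 : T_LIV) (h5 : T_UWS) (h6 : T_LWS) : T_TBD := by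
  intro X Y _ _ _ _ _ S w G q hw hq hq64 k
  have hq1 := q_le hw hq hq64
  induction k with
  | zero =>
    intro _ L f hf hL
    have hsum : ∀ F : Hid X Y 0 → ℝ, ∑ H, F H = F () := fun F => Fintype.sum_unique (ι := Unit) F
    rw [hsum, card_hid0]
    have huw := h5 X (Y 0) L
    have key := h1 X (Y 0) S w 0 q L f hw hq hq64 hL hf
    have e : errT X Y S w G q 0 = 2 / q * (5 / 2 ^ (w + 1)) := by
      unfold errT
      simp
    rw [e, Nat.cast_one, mul_one]
    have hle : (1 : ℝ) ≤ 2 / q := by
      rw [le_div_iff₀ hq]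
      linarith
    have hp : (0 : ℝ) ≤ 5 / 2 ^ (w + 1) := by positivity
    calc ∑ h : X → Y 0, uw L h * ∑ l : X → Bool, lw q l *
          ic (¬ Dx w l (fun b => sv b (0 + 1) (((), h) : Hid X Y (0 + 1))) f)
        ≤ ∑ h : X → Y 0, ∑ l : X → Bool, uw L h * lw q l * ic (¬ Red S w 0 f h l) := by
          refine sum_le_sum fun h _ => ?_
          rw [mul_sum]
          refine sum_le_sum fun l _ => ?_
          rw [← mul_assoc]
          refine mul_le_mul_of_nonneg_left (ic_mono fun hn hr => hn ?_)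
            (mul_nonneg (huw.1 h) (lw_nonneg hq.le hq1 l))
          obtain ⟨f', ⟨T, hT, hT2⟩, hf'⟩ := hr
          exact ⟨T, hT, fun b hb => (hT2 b).trans (hf' b hb)⟩
      _ ≤ ((S : ℝ) + 1) ^ 0 * (5 / 2 ^ (w + 1)) := key
      _ = 1 * (5 / 2 ^ (w + 1)) := by rw [pow_zero]
      _ ≤ 2 / q * (5 / 2 ^ (w + 1)) := mul_le_mul_of_nonneg_right hle hp
  | succ k ih =>
    intro hY L f hf hL
    have ih' := ih (fun i hi => hY i (by omega))
    have hYk : G * Fintype.card (Node X Y k) ≤ Fintype.card (Y k) := hY k (by omega)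
    have huL := h5 (Node X Y (k + 1)) (Y (k + 1)) L
    have hLne : ∀ a, (L a).Nonempty := fun a => by
      rw [← card_pos]
      exact lt_of_lt_of_le (Fintype.card_pos_iff.2 ⟨a⟩) (hL a)
    have huL1 := huL.2 hLne
    have hred := h1 (Node X Y (k + 1)) (Y (k + 1)) S w (k + 1) q L f hw hq hq64 hL hf
    have hsym : ∀ F : (Node X Y k → Y k) → ℝ,
        ∑ l : Node X Y (k + 1) → Bool, lw q l *
          ∑ h : Node X Y k → Y k, uw (Lof (A := Node X Y k) l) h * F h =
        (∑ h, F h) / (Fintype.card (Y k) : ℝ) ^ Fintype.card (Node X Y k) :=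
      fun F => h3 (Node X Y k) (Y k) q F
    have hliv : ∑ l : Node X Y (k + 1) → Bool, lw q l *
        ic (∃ a : Node X Y k, (univ.filter fun z => l (a, z) = true).card <
          Fintype.card (Node X Y k)) ≤
        Fintype.card (Node X Y k) * Fintype.card (Node X Y k) * (1 - q) ^ G :=
      h4 (Node X Y k) (Y k) q (Fintype.card (Node X Y k)) G hq.le hq1 hYk
    have hlw1 : ∑ l : Node X Y (k + 1) → Bool, lw q l = 1 := h6 (Node X Y (k + 1)) q
    have hc : (0 : ℝ) < (Fintype.card (Y k) : ℝ) ^ Fintype.card (Node X Y k) := by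
      have : 0 < Fintype.card (Y k) := Fintype.card_pos
      positivity
    have hcH : (0 : ℝ) ≤ Fintype.card (Hid X Y k) := by positivity
    set c : ℝ := (Fintype.card (Y k) : ℝ) ^ Fintype.card (Node X Y k) with hcdef
    -- the sum over the hidden choices
    have e1 : ∑ H : Hid X Y (k + 1), ∑ h : Node X Y (k + 1) → Y (k + 1), uw L h *
        ∑ l : X → Bool, lw q l *
          ic (¬ Dx w l (fun b => sv b (k + 1 + 1) ((H, h) : Hid X Y (k + 1 + 1))) f) =
        ∑ h' : Node X Y k → Y k, ∑ H : Hid X Y k, ∑ h : Node X Y (k + 1) → Y (k + 1), uw L h *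
        Ps q w k f H h' h := by
      rw [sum_hid, sum_comm]
      rfl
    have e2 : ∑ h' : Node X Y k → Y k, ∑ H : Hid X Y k, ∑ h : Node X Y (k + 1) → Y (k + 1), uw L h *
        Ps q w k f H h' h =
        c * ∑ l : Node X Y (k + 1) → Bool, lw q l *
          ∑ h' : Node X Y k → Y k, uw (Lof (A := Node X Y k) l) h' *
            ∑ H : Hid X Y k, ∑ h : Node X Y (k + 1) → Y (k + 1), uw L h *
              Ps q w k f H h' h := by
      rw [hsym, mul_div_cancel₀ _ hc.ne']
    have e3 : ∑ l : Node X Y (k + 1) → Bool, lw q l *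
          ∑ h' : Node X Y k → Y k, uw (Lof (A := Node X Y k) l) h' *
            ∑ H : Hid X Y k, ∑ h : Node X Y (k + 1) → Y (k + 1), uw L h *
              Ps q w k f H h' h =
        ∑ h : Node X Y (k + 1) → Y (k + 1), ∑ l : Node X Y (k + 1) → Bool, uw L h * lw q l *
          ∑ H : Hid X Y k, ∑ h' : Node X Y k → Y k, uw (Lof (A := Node X Y k) l) h' *
            Ps q w k f H h' h := by
      rw [sum_comm]
      refine sum_congr rfl fun l _ => ?_
      have : ∑ h' : Node X Y k → Y k, uw (Lof (A := Node X Y k) l) h' *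
            ∑ H : Hid X Y k, ∑ h : Node X Y (k + 1) → Y (k + 1), uw L h *
              Ps q w k f H h' h =
          ∑ h : Node X Y (k + 1) → Y (k + 1), uw L h *
            ∑ H : Hid X Y k, ∑ h' : Node X Y k → Y k, uw (Lof (A := Node X Y k) l) h' *
            Ps q w k f H h' h := by
        simp only [mul_sum]
        rw [sum_comm]
        rw [sum_comm (s := (univ : Finset (Node X Y (k + 1) → Y (k + 1))))]
        refine sum_congr rfl fun H _ => ?_
        rw [sum_comm]
        refine sum_congr rfl fun h _ => sum_congr rfl fun h' _ => ?_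
        ring
      rw [this, mul_sum]
      refine sum_congr rfl fun h _ => ?_
      ring
    rw [e1, e2, e3]
    have e4 : ∑ h : Node X Y (k + 1) → Y (k + 1), ∑ l : Node X Y (k + 1) → Bool, uw L h * lw q l *
          ∑ H : Hid X Y k, ∑ h' : Node X Y k → Y k, uw (Lof (A := Node X Y k) l) h' *
            Ps q w k f H h' h ≤
        ∑ h : Node X Y (k + 1) → Y (k + 1), ∑ l : Node X Y (k + 1) → Bool, uw L h * lw q l *
          ((ic (¬ Red S w (k + 1) f h l) +
        ic (∃ a : Node X Y k, (univ.filter fun z => l (a, z) = true).card <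
          Fintype.card (Node X Y k)) + errT X Y S w G q k) * Fintype.card (Hid X Y k)) := by
      refine sum_le_sum fun h _ => sum_le_sum fun l _ => ?_
      exact mul_le_mul_of_nonneg_left (pair_le h5 h6 S w G hq.le hq1 k ih' f h l)
        (mul_nonneg (huL.1 h) (lw_nonneg hq.le hq1 l))
    have e5 : ∑ h : Node X Y (k + 1) → Y (k + 1), ∑ l : Node X Y (k + 1) → Bool, uw L h * lw q l *
          ((ic (¬ Red S w (k + 1) f h l) +
        ic (∃ a : Node X Y k, (univ.filter fun z => l (a, z) = true).card <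
          Fintype.card (Node X Y k)) + errT X Y S w G q k) * Fintype.card (Hid X Y k)) =
        ((∑ h : Node X Y (k + 1) → Y (k + 1), ∑ l : Node X Y (k + 1) → Bool,
            uw L h * lw q l * ic (¬ Red S w (k + 1) f h l)) +
          (∑ h : Node X Y (k + 1) → Y (k + 1), uw L h) *
            (∑ l : Node X Y (k + 1) → Bool, lw q l *
              ic (∃ a : Node X Y k, (univ.filter fun z => l (a, z) = true).card <
                Fintype.card (Node X Y k))) +
          (∑ h : Node X Y (k + 1) → Y (k + 1), uw L h) *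
            (∑ l : Node X Y (k + 1) → Bool, lw q l) * errT X Y S w G q k) *
          Fintype.card (Hid X Y k) := by
      rw [sum_mul_sum, sum_mul_sum, sum_mul, ← sum_add_distrib, ← sum_add_distrib, sum_mul]
      refine sum_congr rfl fun h _ => ?_
      rw [sum_mul, ← sum_add_distrib, ← sum_add_distrib, sum_mul]
      refine sum_congr rfl fun l _ => ?_
      ring
    rw [e5, huL1, hlw1, one_mul, one_mul, one_mul] at e4
    calc c * _ ≤ c * (((∑ h : Node X Y (k + 1) → Y (k + 1), ∑ l : Node X Y (k + 1) → Bool,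
            uw L h * lw q l * ic (¬ Red S w (k + 1) f h l)) +
            (∑ l : Node X Y (k + 1) → Bool, lw q l *
              ic (∃ a : Node X Y k, (univ.filter fun z => l (a, z) = true).card <
                Fintype.card (Node X Y k))) + errT X Y S w G q k) *
          Fintype.card (Hid X Y k)) := mul_le_mul_of_nonneg_left e4 hc.le
      _ ≤ c * ((((S : ℝ) + 1) ^ (k + 1) * (5 / 2 ^ (w + 1)) +
            Fintype.card (Node X Y k) * Fintype.card (Node X Y k) * (1 - q) ^ G +
            errT X Y S w G q k) * Fintype.card (Hid X Y k)) := by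
          refine mul_le_mul_of_nonneg_left (mul_le_mul_of_nonneg_right ?_ hcH) hc.le
          linarith
      _ = errT X Y S w G q (k + 1) * Fintype.card (Hid X Y (k + 1)) := by
          rw [errT_succ, card_hid]
          push_cast
          rw [← hcdef]
          ring

end Pool.Agent.H58.PW.TBD
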